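import Pool.Agent.H295R2.SI.Defs

/-! Task T04 of h295d: the constant (helper228, after `H370R2/Kern.lean`). -/

open Complex Filter Topology Set MeasureTheory

namespace H228SI

open H370 H295SI

theorem constS : H295SI.ConstS := by
  intro h h0 h1
  have hr2 : Real.sqrt 2 ^ 2 = 2 := Real.sq_sqrt (by norm_num)
  have hr : 0 < Real.sqrt 2 := by positivity
  set r := Real.sqrt 2 with hrdef
  have hs0 : r * h ≠ 0 := by positivity
  have hhalf : r * h / 2 = h / r := by
    field_simp
    nlinarith
  have hle : h / r ≤ 1 := by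
    rw [div_le_one hr]
    have : (1:ℝ) ≤ r := by
      rw [hrdef]
      exact Real.one_le_sqrt.mpr (by norm_num)
    linarith
  have hpos : 0 < h / r := by positivity
  have hsin : 0 < Real.sin (h / r) :=
    Real.sin_pos_of_pos_of_lt_pi hpos (by linarith [Real.pi_gt_three])
  set D := (r * h) ^ 2 / (8 * Real.sin (r * h / 2) ^ 2) with hD
  have e1 : ∫ α in (0 : ℝ)..1, α * RS (r * h) α = (∫ α in (0 : ℝ)..1, α * ((1 - α) *
      Real.cos (r * h * α) + Real.sin (r * h * (1 - α)) / (r * h))) * D := by
    rw [← intervalIntegral.integral_mul_const]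
    apply intervalIntegral.integral_congr
    intro x hx
    rw [Set.uIcc_of_le zero_le_one] at hx
    simp only
    unfold RS
    rw [abs_of_nonneg hx.1, if_pos hx.2]
    ring
  have e0 : RS (r * h) 0 = (1 + Real.sin (r * h) / (r * h)) * D := by
    unfold RS
    simp [hD]
  unfold cR cc
  rw [← hrdef, e1, Rf_const_aux _ hs0, e0, Real.cot_eq_cos_div_sin]
  have e : r * h = 2 * (h / r) := by
    rw [← hhalf]; ring
  have es : Real.sin (r * h) = 2 * Real.sin (h / r) * Real.cos (h / r) := by
    conv_lhs => rw [e]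
    rw [Real.sin_two_mul]
  have ec : Real.cos (r * h) = 1 - 2 * Real.sin (h / r) ^ 2 := by
    conv_lhs => rw [e]
    rw [Real.cos_two_mul, Real.cos_sq']
    ring
  rw [hD, hhalf, es, ec]
  set S := Real.sin (h / r)
  set C := Real.cos (h / r)
  have hS : S ≠ 0 := hsin.ne'
  have hr0 : r ≠ 0 := hr.ne'
  have hh0 : h ≠ 0 := h0.ne'
  have e3 : r ^ 3 = 2 * r := by
    rw [pow_succ, hr2]
  field_simp
  ring_nf
  have e4 : r ^ 4 = 4 := by
    have : r ^ 4 = (r ^ 2) ^ 2 := by ring
    rw [this, hr2]; norm_num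
  simp only [hr2, e3, e4]
  ring

end H228SI
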