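import Pool.Agent.H295R2.SI.Defs

/-! Task T06 of h295d: the pair sum as an integral (helper228, after `H370R2/PC1.lean`). -/

open Complex Filter Topology Set MeasureTheory
open scoped BigOperators ComplexConjugate

namespace H228SI

open H370 H295SI

lemma R_cont {R : ℝ → ℝ} (hR : Conv R) : Continuous R := by
  obtain ⟨K, hK, h⟩ := hR.lip
  have : LipschitzWith K.toNNReal R := by
    refine LipschitzWith.of_dist_le_mul fun x y => ?_
    rw [Real.dist_eq, Real.dist_eq, Real.coe_toNNReal _ hK.le]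
    exact h x y
  exact this.continuous

lemma QQG_eq {F : ℂ → ℂ} (hF : GoodL F) {U1 U2 : ℝ} (hU : 1 ≤ U1) (g : ℝ → ℝ) (Λ : ℝ) :
    QQG g F Λ U1 U2 = (∑ s ∈ Zf F U1 U2, ∑ s' ∈ Zf F U1 U2,
    (mult F s : ℂ) * (mult F s' : ℂ) * (phiG g Λ (zz s - zz s')) ^ 2).re := by
  unfold QQG
  rw [finsum_Zf hF hU]
  congr 1
  refine Finset.sum_congr rfl fun s _ => ?_
  rw [finsum_Zf hF hU]

theorem qqJJ : H295SI.QQJJ := by
  intro g R _ hR hK F hF U1 U2 hU Λ
  have hpi : (Real.sqrt Real.pi : ℂ) ≠ 0 := by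
    rw [Ne, Complex.ofReal_eq_zero]; positivity
  have h1 : ∀ s s' : ℂ, (phiG g Λ (zz s - zz s')) ^ 2 = ∫ α in (-1 : ℝ)..1, (R α : ℂ) *
      (cexp (I * ((Λ * α : ℝ) : ℂ) * (zz s - zz s')) * cexp (-(zz s - zz s') ^ 2 / 4)) := by
    intro s s'
    unfold phiG
    rw [mul_pow, hK, ← intervalIntegral.integral_mul_const]
    refine intervalIntegral.integral_congr fun α _ => ?_
    rw [← Complex.exp_nat_mul]
    have e1 : I * (Λ * (zz s - zz s')) * (α : ℂ) = I * ((Λ * α : ℝ) : ℂ) * (zz s - zz s') := by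
      push_cast; ring
    have e2 : ((2 : ℕ) : ℂ) * (-(zz s - zz s') ^ 2 / 8) = -(zz s - zz s') ^ 2 / 4 := by
      push_cast; ring
    rw [e1, e2]; ring
  have h2 : ∑ s ∈ Zf F U1 U2, ∑ s' ∈ Zf F U1 U2,
      (mult F s : ℂ) * (mult F s' : ℂ) * (phiG g Λ (zz s - zz s')) ^ 2 =
      ∫ α in (-1 : ℝ)..1, ((1 / Real.sqrt Real.pi * (R α * JJ F U1 U2 (Λ * α)) : ℝ) : ℂ) := by
    have h3 : ∀ α : ℝ, ((1 / Real.sqrt Real.pi * (R α * JJ F U1 U2 (Λ * α)) : ℝ) : ℂ) =
        ∑ s ∈ Zf F U1 U2, ∑ s' ∈ Zf F U1 U2, (mult F s : ℂ) * (mult F s' : ℂ) * ((R α : ℂ) *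
      (cexp (I * ((Λ * α : ℝ) : ℂ) * (zz s - zz s')) * cexp (-(zz s - zz s') ^ 2 / 4))) := by
      intro α
      rw [Complex.ofReal_mul, Complex.ofReal_mul, JJ_eq hF hU, Finset.mul_sum, Finset.mul_sum,
        Finset.mul_sum]
      refine Finset.sum_congr rfl fun s _ => ?_
      rw [Finset.mul_sum, Finset.mul_sum, Finset.mul_sum]
      refine Finset.sum_congr rfl fun s' _ => ?_
      push_cast
      field_simp
    simp_rw [h3]
    have hc : ∀ s s' : ℂ, Continuous fun α : ℝ => (mult F s : ℂ) * (mult F s' : ℂ) * ((R α : ℂ) *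
      (cexp (I * ((Λ * α : ℝ) : ℂ) * (zz s - zz s')) * cexp (-(zz s - zz s') ^ 2 / 4))) := by
      intro s s'
      have := R_cont hR
      fun_prop
    rw [intervalIntegral.integral_finsetSum]
    swap
    · intro s _
      exact (continuous_finsetSum _ fun s' _ => hc s s').intervalIntegrable _ _
    refine Finset.sum_congr rfl fun s _ => ?_
    rw [intervalIntegral.integral_finsetSum]
    swap
    · intro s' _
      exact (hc s s').intervalIntegrable _ _
    refine Finset.sum_congr rfl fun s' _ => ?_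
    rw [h1, intervalIntegral.integral_const_mul]
  rw [QQG_eq hF hU, h2, intervalIntegral.integral_ofReal, Complex.ofReal_re,
    intervalIntegral.integral_const_mul]
  set G : ℝ → ℝ := fun α => R α * JJ F U1 U2 (Λ * α) with hG
  have hGc : Continuous G := (R_cont hR).mul ((JJ_cont hF hU).comp (by fun_prop))
  have hGe : ∀ α, G (-α) = G α := by
    intro α
    simp only [hG]
    rw [hR.even, mul_neg, JJ_even hF hU]
  have h4 : ∫ α in (-1 : ℝ)..1, G α = 2 * ∫ α in (0 : ℝ)..1, G α := by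
    rw [← intervalIntegral.integral_add_adjacent_intervals (b := 0)
      (hGc.intervalIntegrable _ _) (hGc.intervalIntegrable _ _)]
    have h5 : ∫ α in (-1 : ℝ)..0, G α = ∫ α in (0 : ℝ)..1, G α := by
      have := intervalIntegral.integral_comp_neg (a := (0 : ℝ)) (b := 1) G
      simp_rw [hGe] at this
      rw [neg_zero] at this
      exact this.symm
    rw [h5]; ring
  rw [h4]; ring

end H228SI
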